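import Pool.Agent.Helper91.DT.Six
import Pool.Agent.Helper35.DT.Long

/-!
# DT6, final form
-/

set_option autoImplicit false

namespace Pool.Agent.Helper91.DT

open Polynomial IntermediateField Pool.Agent.Helper93.RatODE Pool.Agent.Helper45.FR
  Pool.Agent.Helper38.DT

/-- DT6 : a rational function in correspondence with a constant one is constant (up to
conjugation). -/
theorem dt6 {k E : Type} [Field k] [IsAlgClosed k] [Field E] [IsAlgClosed E] [Algebra k E]
    (hE : Algebra.trdeg k E = 1) (F G : E[X]) (d : ℕ) (hd : 2 ≤ d) (hFG : IsRatD F G d)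
    (A B : E[X]) (δ : ℕ) (hδ : 2 ≤ δ) (hAB : IsRatD A B δ) (hc : ConstConj k A B δ)
    (q : ℕ → ℕ → E) (m n ρ : ℕ) (hρ : 1 ≤ ρ)
    (hq : Corr q m n A B δ (iter F G d ρ).1 (iter F G d ρ).2 (d ^ ρ)) : ConstConj k F G d :=
  dt6_of (fun A B δ hδ hAB N => Pool.Agent.Helper35.DT.dt7 A B δ hδ hAB N)
    hE F G d hd hFG A B δ hδ hAB hc q m n ρ hρ hq

end Pool.Agent.Helper91.DT
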