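import Mathlib
import Pool.Agent.Helper55.RM.Pack
import Pool.Agent.Helper38.DT.Defs
import Pool.Agent.Helper45.RatRed

/-!
# DT6, part A: places of bad reduction in extensions of bounded degree
-/

set_option autoImplicit false

namespace Pool.Agent.Helper91.DT

open Polynomial IntermediateField

section places

variable {k L M : Type} [Field k] [Field L] [Field M] [Algebra k L] [Algebra L M] [Algebra k M]
  [IsScalarTower k L M]

theorem finrank_adjoin_tower (g : L) :
    Module.finrank k⟮algebraMap L M g⟯ M = Module.finrank k⟮g⟯ L * Module.finrank L M := by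
  set f : L →ₐ[k] M := IsScalarTower.toAlgHom k L M with hf
  have h1 : k⟮g⟯.map f = k⟮algebraMap L M g⟯ := by
    rw [IntermediateField.adjoin_map, Set.image_singleton]
    rfl
  rw [Module.finrank_mul_finrank k⟮g⟯ L M, ← h1]
  symm
  refine Algebra.finrank_eq_of_equiv_equiv (IntermediateField.equivMap k⟮g⟯ f).toRingEquiv
    (RingEquiv.refl M) ?_
  ext x
  rfl

open Pool.Agent.Helper16 in
theorem card_zeros_le (hM : IsFunctionField k M) (f : M) (hf : Transcendental k f) :
    ∃ S : Finset (Place k M), (∀ v, v ∈ S ↔ v.val f < 1) ∧ S.card ≤ Module.finrank k⟮f⟯ M := by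
  obtain ⟨S, h1, h2, -⟩ := hM.zeros f hf
  refine ⟨S, h1, ?_⟩
  have hf0 : f ≠ 0 := transcendental_ne_zero hf
  have h3 : (S.card : ℤ) ≤ ∑ v ∈ S, v.ord f * (v.deg : ℤ) := by
    rw [Finset.card_eq_sum_ones]
    push_cast
    refine Finset.sum_le_sum fun v hv => ?_
    rw [h1, ← v.ord_pos_iff hf0] at hv
    have h4 : (0 : ℤ) < (v.deg : ℤ) := by exact_mod_cast v.deg_pos hM
    nlinarith
  rw [h2] at h3
  exact_mod_cast h3

theorem card_ne_one_le (hM : Pool.Agent.Helper16.IsFunctionField k M) (g : L) (hg : g ≠ 0) :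
    ∃ Z : Finset (Pool.Agent.Helper55.RM.Place k M),
      Z.card ≤ 2 * (Module.finrank k⟮g⟯ L * Module.finrank L M) ∧
      ∀ v ∉ Z, v.val (algebraMap L M g) = 1 := by
  classical
  have hg' : algebraMap L M g ≠ 0 := by simpa using hg
  by_cases hf : IsAlgebraic k (algebraMap L M g)
  · exact ⟨∅, by simp, fun v _ => v.toP.val_eq_one_of_algebraic hf hg'⟩
  · obtain ⟨S, h1, h2⟩ := card_zeros_le hM _ hf
    obtain ⟨T, h3, h4⟩ := card_zeros_le hM _ (Pool.Agent.Helper16.transcendental_inv hf)
    rw [Pool.Agent.Helper16.finrank_inv] at h4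
    rw [finrank_adjoin_tower] at h2 h4
    refine ⟨(S ∪ T).image Pool.Agent.Helper55.RM.Place.ofP, ?_, fun v hv => ?_⟩
    · refine Finset.card_image_le.trans ((Finset.card_union_le _ _).trans ?_)
      omega
    · have h5 : v.toP ∉ S ∪ T := fun h => hv (Finset.mem_image.2 ⟨v.toP, h, rfl⟩)
      rw [Finset.mem_union, not_or, h1, h3, not_lt, not_lt] at h5
      obtain ⟨h5, h6⟩ := h5
      refine le_antisymm ?_ h5
      rw [map_inv₀] at h6
      by_contra hcon
      rw [not_le] at hcon
      have h7 : (v.val (algebraMap L M g))⁻¹ < 1 := inv_lt_one_of_one_lt₀ hcon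
      exact absurd h6 (not_le.2 h7)

end places

end Pool.Agent.Helper91.DT
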