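import Pool.Agent.Helper91.DT.A

/-!
# DT6, part B: pairs of forms and pairs of polynomials; isotriviality
-/

set_option autoImplicit false

namespace Pool.Agent.Helper91.DT

open Polynomial IntermediateField Pool.Agent.Helper93.RatODE Pool.Agent.Helper45.FR
  Pool.Agent.Helper38.DT
open Pool.Agent.Helper55.RD (hom)
open Pool.Agent.Helper55.RM (lift ext IsRat Isotrivial Conj PotGood prePer)

section forms

variable {K : Type} [Field K]

/-- the pair of forms of degree `d` given by `F`, `G` -/
noncomputable def frm (F G : K[X]) (d : ℕ) : Fin 2 → MvPolynomial (Fin 2) K :=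
  ![F.homogenize d, G.homogenize d]

theorem hom_eq_hev {A : Type} [CommRing A] [Algebra K A] (P : K[X]) (n : ℕ) (a b : A) :
    hom n P a b = hev P n a b := by
  rw [hom, Finset.Nat.sum_antidiagonal_eq_sum_range_succ_mk, hev]

theorem lift_frm (F G : K[X]) (d : ℕ) (x : Fin 2 → K) :
    lift (frm F G d) x = ![hev F d (x 0) (x 1), hev G d (x 0) (x 1)] := by
  funext i
  fin_cases i
  · change MvPolynomial.eval x (F.homogenize d) = hev F d (x 0) (x 1)
    rw [Pool.Agent.Helper55.RM.eval_homogenize', hom_eq_hev]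
  · change MvPolynomial.eval x (G.homogenize d) = hev G d (x 0) (x 1)
    rw [Pool.Agent.Helper55.RM.eval_homogenize', hom_eq_hev]

theorem ext_frm {K₁ : Type} [Field K₁] [Algebra K K₁] (F G : K[X]) (d : ℕ) :
    ext K₁ (frm F G d) = frm (F.map (algebraMap K K₁)) (G.map (algebraMap K K₁)) d := by
  funext i
  fin_cases i
  · exact (homogenize_map (algebraMap K K₁) F d).symm
  · exact (homogenize_map (algebraMap K K₁) G d).symm

theorem frm_hom (F G : K[X]) (d : ℕ) : ∀ i, (frm F G d i).IsHomogeneous d := by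
  intro i
  fin_cases i
  · exact isHomogeneous_homogenize F
  · exact isHomogeneous_homogenize G

theorem hev_map_coeff {K₁ : Type} [Field K₁] [Algebra K K₁] {A : Type} [CommRing A] [Algebra K A]
    [Algebra K₁ A] [IsScalarTower K K₁ A] (P : K[X]) (n : ℕ) (a b : A) :
    hev (P.map (algebraMap K K₁)) n a b = hev P n a b := by
  unfold hev
  simp only [coeff_map, ← IsScalarTower.algebraMap_apply]

theorem isRat_frm {F G : K[X]} {d : ℕ} (h : IsRatD F G d) : IsRat d (frm F G d) := by
  refine ⟨frm_hom F G d, fun x hx => ?_⟩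
  rw [ext_frm, lift_frm] at hx
  have h0 : hev F d (x 0) (x 1) = 0 := by
    rw [← hev_map_coeff (K₁ := AlgebraicClosure K) F]
    exact congrFun hx 0
  have h1 : hev G d (x 0) (x 1) = 0 := by
    rw [← hev_map_coeff (K₁ := AlgebraicClosure K) G]
    exact congrFun hx 1
  have h2 := hev_no_common_zero h.cop h.degF h.degG h.top h0 h1
  funext i
  fin_cases i
  · exact h2.1
  · exact h2.2

end forms

section iso

theorem mem_range_of_isAlgebraic {k E : Type} [Field k] [IsAlgClosed k] [Field E] [Algebra k E]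
    {x : E} (hx : IsAlgebraic k x) : ∃ a : k, algebraMap k E a = x :=
  minpoly.mem_range_of_degree_eq_one k x
    (IsAlgClosed.degree_eq_one_of_irreducible k (minpoly.irreducible hx.isIntegral))

theorem hev_ringHom {K K₁ : Type} [Field K] [Field K₁] (ε : K →+* K₁) (P : K[X]) (n : ℕ)
    (a b : K) : ε (hev P n a b) = hev (P.map ε) n (ε a) (ε b) := by
  simp [hev, map_sum]

theorem hev_one {K : Type} [Field K] {P : K[X]} {n : ℕ} (hP : P.natDegree ≤ n) (y : K) :
    hev P n y 1 = P.eval y := by
  rw [hev_eq_eval P n hP y 1 one_ne_zero]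
  simp

/-- conjugacy from an identity of values -/
theorem constConj_of_values {k E : Type} [Field k] [Field E]
    [Algebra k E] {F G : E[X]} {d : ℕ} (hFG : IsRatD F G d) [IsAlgClosed E]
    (A : Matrix (Fin 2) (Fin 2) E) (hdet : A.det ≠ 0) (P' Q' : k[X]) (hP' : P'.natDegree ≤ d)
    (hQ' : Q'.natDegree ≤ d) (c : E) (hc : c ≠ 0)
    (h : ∀ u w : E, hev F d (A 0 0 * u + A 0 1 * w) (A 1 0 * u + A 1 1 * w) =
        c * (A 0 0 * hev P' d u w + A 0 1 * hev Q' d u w) ∧
      hev G d (A 0 0 * u + A 0 1 * w) (A 1 0 * u + A 1 1 * w) =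
        c * (A 1 0 * hev P' d u w + A 1 1 * hev Q' d u w)) :
    ConstConj k F G d := by
  have hinj := (algebraMap k E).injective
  have hdet' : A 0 0 * A 1 1 - A 0 1 * A 1 0 ≠ 0 := by rwa [Matrix.det_fin_two] at hdet
  have hne : ∀ u w : E, (u ≠ 0 ∨ w ≠ 0) → ¬ (hev P' d u w = 0 ∧ hev Q' d u w = 0) := by
    rintro u w huw ⟨h1, h2⟩
    obtain ⟨h3, h4⟩ := h u w
    rw [h1, h2, mul_zero, mul_zero, add_zero, mul_zero] at h3 h4
    obtain ⟨h5, h6⟩ := hev_no_common_zero hFG.cop hFG.degF hFG.degG hFG.top h3 h4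
    have h7 : (A 0 0 * A 1 1 - A 0 1 * A 1 0) * u = 0 := by
      linear_combination A 1 1 * h5 - A 0 1 * h6
    have h8 : (A 0 0 * A 1 1 - A 0 1 * A 1 0) * w = 0 := by
      linear_combination A 0 0 * h6 - A 1 0 * h5
    rcases huw with h | h
    · exact h ((mul_eq_zero.1 h7).resolve_left hdet')
    · exact h ((mul_eq_zero.1 h8).resolve_left hdet')
  have hPE : (P'.map (algebraMap k E)).natDegree ≤ d := natDegree_map_le.trans hP'
  have hQE : (Q'.map (algebraMap k E)).natDegree ≤ d := natDegree_map_le.trans hQ'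
  refine ⟨A, P', Q', c, hdet, hc, hP', hQ', ?_, ?_, ?_, ?_⟩
  · rw [isCoprime_iff_aeval_ne_zero_of_isAlgClosed E E]
    intro a
    by_contra hcon
    rw [not_or, not_not, not_not] at hcon
    refine hne a 1 (Or.inr one_ne_zero) ⟨?_, ?_⟩
    · rw [← hev_map_coeff (K₁ := E) P', hev_one hPE, ← coe_aeval_eq_eval]
      exact hcon.1
    · rw [← hev_map_coeff (K₁ := E) Q', hev_one hQE, ← coe_aeval_eq_eval]
      exact hcon.2
  · by_contra hcon
    push Not at hcon
    refine hne 1 0 (Or.inl one_ne_zero) ⟨?_, ?_⟩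
    · rw [hev_right_zero, hcon.1, map_zero, zero_mul]
    · rw [hev_right_zero, hcon.2, map_zero, zero_mul]
  · refine Polynomial.funext fun y => ?_
    rw [hev_eval]
    simp only [eval_add, eval_mul, eval_C, eval_X]
    rw [← hev_one hPE, ← hev_one hQE, hev_map_coeff, hev_map_coeff]
    have := (h y 1).1
    simp only [mul_one] at this
    exact this
  · refine Polynomial.funext fun y => ?_
    rw [hev_eval]
    simp only [eval_add, eval_mul, eval_C, eval_X]
    rw [← hev_one hPE, ← hev_one hQE, hev_map_coeff, hev_map_coeff]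
    have := (h y 1).2
    simp only [mul_one] at this
    exact this

theorem constConj_of_isotrivial {k M E : Type} [Field k] [IsAlgClosed k] [Field M] [Field E]
    [IsAlgClosed E] [Algebra k M] [Algebra M E] [Algebra k E] [IsScalarTower k M E]
    [Algebra.IsAlgebraic M E] {F G : M[X]} {d : ℕ}
    (hFG : IsRatD (F.map (algebraMap M E)) (G.map (algebraMap M E)) d)
    (h : Isotrivial k d (frm F G d)) :
    ConstConj k (F.map (algebraMap M E)) (G.map (algebraMap M E)) d := by
  obtain ⟨A, Ψ, ⟨hdet, c, hc, hconj⟩, hΨ, halg⟩ := h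
  have : IsAlgClosure M E := ⟨inferInstance, inferInstance⟩
  set e : AlgebraicClosure M ≃ₐ[M] E := IsAlgClosure.equiv M (AlgebraicClosure M) E with he
  set ε : AlgebraicClosure M →+* E := (e : AlgebraicClosure M →+* E) with hε
  have hcoef : ∀ i n, ∃ a : k, algebraMap k E a =
      ((Pool.Agent.Helper55.RM.deh (Ψ i)).map ε).coeff n := by
    intro i n
    apply mem_range_of_isAlgebraic
    rw [coeff_map]
    have h1 : IsAlgebraic k ((Pool.Agent.Helper55.RM.deh (Ψ i)).coeff n) := by
      rw [Pool.Agent.Helper55.RM.deh_eq_sum, finsetSum_coeff]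
      have : ∀ s : Finset (Fin 2 →₀ ℕ), IsAlgebraic k
          (∑ m ∈ s, (C ((Ψ i).coeff m) * X ^ (m 0)).coeff n) := by
        intro s
        induction s using Finset.induction_on with
        | empty => simpa using isAlgebraic_zero
        | insert a s ha ih =>
          rw [Finset.sum_insert ha]
          refine IsAlgebraic.add ?_ ih
          rw [coeff_C_mul_X_pow]
          split_ifs
          · exact halg i a
          · exact isAlgebraic_zero
      exact this _
    have h2 : IsAlgebraic k ((e.toAlgHom.restrictScalars k)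
        ((Pool.Agent.Helper55.RM.deh (Ψ i)).coeff n)) := h1.algHom _
    exact h2
  have hlift : ∀ i, ∃ P' : k[X], P'.natDegree ≤ d ∧
      P'.map (algebraMap k E) = (Pool.Agent.Helper55.RM.deh (Ψ i)).map ε := by
    intro i
    have h1 : (Pool.Agent.Helper55.RM.deh (Ψ i)).map ε ∈ lifts (algebraMap k E) := by
      rw [lifts_iff_coeff_lifts]
      intro n
      obtain ⟨a, ha⟩ := hcoef i n
      exact ⟨a, ha⟩
    obtain ⟨P', hP', hdeg⟩ := exists_degree_eq_of_mem_lifts h1
    refine ⟨P', ?_, hP'⟩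
    rw [natDegree_eq_of_degree_eq hdeg]
    exact natDegree_map_le.trans (Pool.Agent.Helper55.RM.natDegree_deh (hΨ i))
  obtain ⟨P', hP'd, hP'⟩ := hlift 0
  obtain ⟨Q', hQ'd, hQ'⟩ := hlift 1
  have hdetE : (A.map ε).det ≠ 0 := by
    rw [← RingHom.mapMatrix_apply, ← RingHom.map_det]
    exact (map_ne_zero ε).2 hdet
  refine constConj_of_values hFG (A.map ε) hdetE P' Q' hP'd hQ'd (ε c) ((map_ne_zero ε).2 hc)
    fun u w => ?_
  obtain ⟨u', rfl⟩ := e.surjective u
  obtain ⟨w', rfl⟩ := e.surjective w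
  have h1 := hconj ![u', w']
  rw [ext_frm, lift_frm, Pool.Agent.Helper55.RM.lift_zero hΨ] at h1
  have h2 := congrArg ε (congrFun h1 0)
  have h3 := congrArg ε (congrFun h1 1)
  simp only [Matrix.mulVec, dotProduct, Fin.sum_univ_two, Matrix.cons_val_zero,
    Matrix.cons_val_one, Pi.smul_apply, smul_eq_mul, map_mul, map_add, hom_eq_hev] at h2 h3
  have h4 : ∀ (P : M[X]) (a b : AlgebraicClosure M),
      ε (hev (P.map (algebraMap M (AlgebraicClosure M))) d a b) =
      hev (P.map (algebraMap M E)) d (ε a) (ε b) := by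
    intro P a b
    rw [hev_map_coeff, hev_map_coeff]
    exact hev_map (e : AlgebraicClosure M →ₐ[M] E) P d a b
  have h5 : ε (hev (Pool.Agent.Helper55.RM.deh (Ψ 0)) d u' w') = hev P' d (ε u') (ε w') := by
    rw [hev_ringHom, ← hP', hev_map_coeff]
  have h6 : ε (hev (Pool.Agent.Helper55.RM.deh (Ψ 1)) d u' w') = hev Q' d (ε u') (ε w') := by
    rw [hev_ringHom, ← hQ', hev_map_coeff]
  rw [h4, h5, h6] at h2 h3
  simp only [map_add, map_mul] at h2 h3
  exact ⟨h2, h3⟩

end iso

end Pool.Agent.Helper91.DT
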