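import Pool.Agent.Helper91.DT.B

/-!
# DT6, part C: orbits of preperiodic points over a function field
-/

set_option autoImplicit false

namespace Pool.Agent.Helper91.DT

open Polynomial IntermediateField Pool.Agent.Helper93.RatODE Pool.Agent.Helper45.FR
  Pool.Agent.Helper38.DT
open Pool.Agent.Helper55.RD (hom)
open Pool.Agent.Helper55.RM (lift ext IsRat Isotrivial Conj PotGood prePer)

section pt

variable {K : Type} [Field K]

open Classical in
/-- the point of the projective line -/
noncomputable def pt (v : K × K) : Option K := if v.2 = 0 then none else some (v.1 / v.2)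

theorem pt_eq_iff {v w : K × K} (hv : v ≠ 0) (hw : w ≠ 0) : pt v = pt w ↔ cr v w = 0 := by
  unfold pt cr
  by_cases h1 : v.2 = 0
  · have h1' : v.1 ≠ 0 := fun h => hv (Prod.ext h h1)
    by_cases h2 : w.2 = 0
    · simp [h1, h2]
    · simp [h1, h2, h1']
  · by_cases h2 : w.2 = 0
    · have h2' : w.1 ≠ 0 := fun h => hw (Prod.ext h h2)
      simp [h1, h2, h2']
    · rw [if_neg h1, if_neg h2, Option.some_inj, div_eq_div_iff h1 h2, sub_eq_zero]
      constructor
      · intro h; rw [h]; ring
      · intro h; rw [h]; ring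

theorem pt_smul {c : K} (hc : c ≠ 0) (v : K × K) : pt (c • v) = pt v := by
  unfold pt
  by_cases h1 : v.2 = 0
  · simp [h1]
  · simp only [Prod.smul_fst, Prod.smul_snd, smul_eq_mul, mul_eq_zero, hc, h1, or_self, if_false]
    rw [mul_div_mul_left _ _ hc]

theorem pt_map {K' : Type} [Field K'] (f : K →+* K') (v : K × K) :
    pt (f v.1, f v.2) = (pt v).map f := by
  unfold pt
  by_cases h1 : v.2 = 0
  · simp [h1]
  · simp [h1]

/-- iterates of proportional vectors -/
theorem phi_iter_smul {F G : K[X]} {d : ℕ} (c : K) (v : K × K) (n : ℕ) :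
    (phi F G d)^[n] (c • v) = c ^ d ^ n • (phi F G d)^[n] v := by
  induction n with
  | zero => simp
  | succ n ih =>
    rw [Function.iterate_succ_apply', Function.iterate_succ_apply', ih, phi_smul, ← pow_mul,
      ← pow_succ]

theorem phi_iter_map {K' : Type} [Field K'] [Algebra K K'] {F G : K[X]} {d : ℕ} (v : K × K)
    (n : ℕ) : (phi (F.map (algebraMap K K')) (G.map (algebraMap K K')) d)^[n]
      (algebraMap K K' v.1, algebraMap K K' v.2) =
    (algebraMap K K' ((phi F G d)^[n] v).1, algebraMap K K' ((phi F G d)^[n] v).2) := by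
  induction n with
  | zero => rfl
  | succ n ih =>
    rw [Function.iterate_succ_apply', Function.iterate_succ_apply', ih]
    unfold phi
    simp only
    rw [hev_ringHom, hev_ringHom]

end pt

section bound

variable {k M : Type} [Field k] [IsAlgClosed k] [Field M] [Algebra k M]

theorem potGood_of_good {F G : M[X]} {d : ℕ} (v : Pool.Agent.Helper55.RM.Place k M)
    (hF : F.natDegree ≤ d) (hG : G.natDegree ≤ d)
    (h1 : ∀ j, v.val (F.coeff j) ≤ 1) (h2 : ∀ j, v.val (G.coeff j) ≤ 1)
    (h3 : v.val (resultant F G d d) = 1) : PotGood v d (frm F G d) := by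
  refine ⟨M, inferInstance, inferInstance, inferInstance, inferInstance, inferInstance, v, 1,
    frm F G d, fun x => Iff.rfl, ⟨by simp, 1, one_ne_zero, fun x => ?_⟩, frm_hom F G d, ?_, ?_⟩
  · rw [ext_frm, Matrix.one_mulVec, Matrix.one_mulVec, one_smul]
    simp
  · intro i m
    fin_cases i
    · change v.val ((F.homogenize d).coeff m) ≤ 1
      rw [coeff_homogenize]
      split_ifs
      · exact h1 _
      · simp
    · change v.val ((G.homogenize d).coeff m) ≤ 1
      rw [coeff_homogenize]
      split_ifs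
      · exact h2 _
      · simp
  · change v.val (resultant (MvPolynomial.aeval ![X, 1] (F.homogenize d))
      (MvPolynomial.aeval ![X, 1] (G.homogenize d)) d d) = 1
    rw [aeval_homogenize_X_one F hF, aeval_homogenize_X_one G hG]
    exact h3

theorem lift_frm_iter (F G : M[X]) (d : ℕ) (v : M × M) (n : ℕ) :
    (lift (frm F G d))^[n] ![v.1, v.2] = ![((phi F G d)^[n] v).1, ((phi F G d)^[n] v).2] := by
  induction n with
  | zero => rfl
  | succ n ih =>
    rw [Function.iterate_succ_apply', Function.iterate_succ_apply', ih, lift_frm]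
    simp [phi]

/-- the orbit of a preperiodic point has few points -/
theorem card_orbit_le (hfg : (⊤ : IntermediateField k M).FG)
    (htr : ∃ x : M, Transcendental k x ∧ Algebra.IsAlgebraic (IntermediateField.adjoin k {x}) M)
    (F G : M[X]) {d : ℕ} (hd : 2 ≤ d) (hFG : IsRatD F G d)
    (hnot : ¬ Isotrivial k d (frm F G d)) (s : ℕ)
    (Z : Finset (Pool.Agent.Helper55.RM.Place k M)) (hZ : Z.card ≤ s)
    (hgood : ∀ v ∉ Z, (∀ j, v.val (F.coeff j) ≤ 1) ∧ (∀ j, v.val (G.coeff j) ≤ 1) ∧
      v.val (resultant F G d d) = 1)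
    (ζ : M × M) (hζ : ζ ≠ 0)
    (hpp : ∃ a b, a < b ∧ cr ((phi F G d)^[a] ζ) ((phi F G d)^[b] ζ) = 0)
    (T : Finset (Option M)) (hT : ∀ p ∈ T, ∃ i, p = pt ((phi F G d)^[i] ζ)) :
    T.card ≤ Pool.Agent.Helper55.RM.bound d s := by
  have hmain := Pool.Agent.Helper55.RM.main d s hd k M hfg htr (frm F G d) (isRat_frm hFG) hnot
    ⟨Z, hZ, fun v hv => potGood_of_good v hFG.degF hFG.degG (hgood v hv).1 (hgood v hv).2.1
      (hgood v hv).2.2⟩
  set g : Projectivization M (Fin 2 → M) → Option M := fun P => pt (P.rep 0, P.rep 1) with hg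
  have hvec : ∀ w : M × M, w ≠ 0 → (![w.1, w.2] : Fin 2 → M) ≠ 0 := by
    intro w hw h
    exact hw (Prod.ext (congrFun h 0) (congrFun h 1))
  have hgmk : ∀ (w : M × M) (hw : w ≠ 0),
      g (Projectivization.mk M ![w.1, w.2] (hvec w hw)) = pt w := by
    intro w hw
    obtain ⟨a, ha⟩ := Projectivization.exists_smul_eq_mk_rep M ![w.1, w.2] (hvec w hw)
    simp only [hg]
    rw [← ha]
    exact pt_smul (Units.ne_zero a) w
  have hne : ∀ i, (phi F G d)^[i] ζ ≠ 0 := phi_iter_ne_zero hFG.cop hFG.degF hFG.degG hFG.top hζ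
  have hsub : (T : Set (Option M)) ⊆ g '' (prePer (frm F G d)) := by
    intro p hp
    obtain ⟨i, rfl⟩ := hT p hp
    refine ⟨_, ?_, hgmk _ (hne i)⟩
    obtain ⟨a, b, hab, hcr⟩ := hpp
    -- the shifted point is preperiodic
    have hcr' : cr ((phi F G d)^[a] ((phi F G d)^[i] ζ)) ((phi F G d)^[b] ((phi F G d)^[i] ζ)) = 0 := by
      have := cr_phi_iter hFG.cop hFG.degF hFG.degG hFG.top (hne a) (hne b) hcr i
      rw [← Function.iterate_add_apply, ← Function.iterate_add_apply] at this
      rwa [← Function.iterate_add_apply, ← Function.iterate_add_apply, add_comm a, add_comm b]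
    set w := (phi F G d)^[i] ζ with hw
    have hw0 : w ≠ 0 := hne i
    have hwn : ∀ n, (phi F G d)^[n] w ≠ 0 :=
      phi_iter_ne_zero hFG.cop hFG.degF hFG.degG hFG.top hw0
    obtain ⟨c, hc, hce⟩ := exists_smul_of_cr (hwn a) (hwn b) hcr'
    obtain ⟨u, hu⟩ := Projectivization.exists_smul_eq_mk_rep M ![w.1, w.2] (hvec w hw0)
    have hrep : (Projectivization.mk M ![w.1, w.2] (hvec w hw0)).rep =
        ![((u : M) • w).1, ((u : M) • w).2] := by
      rw [← hu]
      funext j
      fin_cases j <;> rfl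
    refine ⟨a, b, hab, ((u : M) ^ d ^ b * c * ((u : M) ^ d ^ a)⁻¹), ?_, ?_⟩
    · exact mul_ne_zero (mul_ne_zero (pow_ne_zero _ (Units.ne_zero u)) hc)
        (inv_ne_zero (pow_ne_zero _ (Units.ne_zero u)))
    · rw [hrep, lift_frm_iter, lift_frm_iter, phi_iter_smul, phi_iter_smul, hce]
      have hu0 : ((u : M) ^ d ^ a) ≠ 0 := pow_ne_zero _ (Units.ne_zero u)
      funext j
      fin_cases j
      · simp
        field_simp
      · simp
        field_simp
  have h1 : (T : Set (Option M)).encard ≤ Pool.Agent.Helper55.RM.bound d s :=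
    ((Set.encard_le_encard hsub).trans (Set.encard_image_le _ _)).trans hmain
  rw [Set.encard_coe_eq_coe_finsetCard] at h1
  exact_mod_cast h1

end bound

end Pool.Agent.Helper91.DT
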