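import Pool.Agent.Helper91.DT.C
import Pool.Agent.Helper16.TW1

/-!
# DT6, part D: a bound for preperiodic points of bounded degree
-/

set_option autoImplicit false

namespace Pool.Agent.Helper91.DT

open Polynomial IntermediateField Pool.Agent.Helper93.RatODE Pool.Agent.Helper45.FR
  Pool.Agent.Helper38.DT
open Pool.Agent.Helper55.RD (hom)
open Pool.Agent.Helper55.RM (lift ext IsRat Isotrivial Conj PotGood prePer)

section trdeg

variable {k E : Type} [Field k] [Field E] [Algebra k E]

theorem exists_transcendental (hE : Algebra.trdeg k E = 1) : ∃ t : E, Transcendental k t := by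
  by_contra h
  push Not at h
  have h1 : Algebra.IsAlgebraic k E := ⟨fun x => by
    have := h x
    rwa [Transcendental, not_not] at this⟩
  have h3 : Algebra.trdeg k E = 0 := trdeg_eq_zero
  rw [h3] at hE
  exact zero_ne_one hE

theorem trdeg_intermediate (hE : Algebra.trdeg k E = 1) (L : IntermediateField k E) (t : E)
    (ht : Transcendental k t) (htL : t ∈ L) :
    Algebra.trdeg k L = 1 ∧ Algebra.IsAlgebraic L E := by
  have h1 := trdeg_add_eq k L (A := E)
  rw [hE] at h1
  have ht' : Transcendental k (⟨t, htL⟩ : L) := by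
    intro h
    exact ht (h.algHom L.val)
  have h2 : AlgebraicIndependent k (fun _ : Unit => (⟨t, htL⟩ : L)) :=
    algebraicIndependent_unique_type_iff.2 ht'
  have h3 : 1 ≤ Algebra.trdeg k L := by
    have := h2.lift_cardinalMk_le_trdeg
    simpa using this
  have h4 : Algebra.trdeg L E = 0 := by
    by_contra hne
    have h5 : 1 ≤ Algebra.trdeg L E := Cardinal.one_le_iff_ne_zero.2 hne
    have h6 : (1 : Cardinal) + 1 ≤ 1 := by
      calc (1 : Cardinal) + 1 ≤ Algebra.trdeg k L + Algebra.trdeg L E := add_le_add h3 h5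
        _ = 1 := h1
    norm_num at h6
  rw [h4, add_zero] at h1
  exact ⟨h1, trdeg_eq_zero_iff.1 h4⟩

end trdeg

section lifting

variable {k E : Type} [Field k] [Field E] [Algebra k E]

theorem exists_lift_poly {K : IntermediateField k E} (p : E[X]) (hp : ∀ j, p.coeff j ∈ K) :
    ∃ q : K[X], q.map (algebraMap K E) = p := by
  have h1 : p ∈ lifts (algebraMap K E) := by
    rw [lifts_iff_coeff_lifts]
    intro n
    exact ⟨⟨p.coeff n, hp n⟩, rfl⟩
  exact (mem_lifts p).1 h1

end lifting

theorem isRatD_of_map {K E : Type} [Field K] [Field E] [Algebra K E] {F G : K[X]} {d : ℕ}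
    (h : IsRatD (F.map (algebraMap K E)) (G.map (algebraMap K E)) d) : IsRatD F G d where
  cop := (isCoprime_map _).1 h.cop
  degF := by have := h.degF; rwa [natDegree_map] at this
  degG := by have := h.degG; rwa [natDegree_map] at this
  top := by
    have := h.top
    rw [coeff_map, coeff_map] at this
    rcases this with h | h
    · exact Or.inl fun h0 => h (by rw [h0, map_zero])
    · exact Or.inr fun h0 => h (by rw [h0, map_zero])

theorem resultant_ne_zero_of_isRatD {K : Type} [Field K] {F G : K[X]} {d : ℕ} (hd : 2 ≤ d)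
    (h : IsRatD F G d) : resultant F G d d ≠ 0 := by
  refine Pool.Agent.Helper55.RD.resultant_ne_zero_of_isCoprime h.cop h.degF h.degG ?_ (by omega)
  rcases h.top with h1 | h1
  · exact Or.inl (le_antisymm h.degF (le_natDegree_of_ne_zero h1))
  · exact Or.inr (le_antisymm h.degG (le_natDegree_of_ne_zero h1))

section bound

variable {k E : Type} [Field k] [IsAlgClosed k] [Field E] [IsAlgClosed E] [Algebra k E]

/-- **Bound for preperiodic points of bounded degree.** -/
theorem exists_bound (hE : Algebra.trdeg k E = 1) (F G : E[X]) {d : ℕ} (hd : 2 ≤ d)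
    (hFG : IsRatD F G d) (hnot : ¬ ConstConj k F G d) (S₀ : Set E) (hS₀ : S₀.Finite) (n : ℕ) :
    ∃ B : ℕ, ∀ (p : E[X]) (ζ : E × E), p ≠ 0 → p.natDegree ≤ n →
      (∀ j, p.coeff j ∈ adjoin k S₀) → ζ ≠ 0 → (ζ.2 ≠ 0 → p.eval (ζ.1 / ζ.2) = 0) →
      (∃ a b, a < b ∧ cr ((phi F G d)^[a] ζ) ((phi F G d)^[b] ζ) = 0) →
      ∀ T : Finset (Option E), (∀ q ∈ T, ∃ i, q = pt ((phi F G d)^[i] ζ)) → T.card ≤ B := by
  classical
  obtain ⟨t, ht⟩ := exists_transcendental hE
  set S : Set E := S₀ ∪ ({t} ∪ ((F.coeffs : Set E) ∪ (G.coeffs : Set E))) with hS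
  have hSfin : S.Finite :=
    hS₀.union ((Set.finite_singleton t).union ((Finset.finite_toSet _).union
      (Finset.finite_toSet _)))
  set L := adjoin k S with hL
  have htL : t ∈ L := subset_adjoin k S (by simp [hS])
  have hFL : ∀ j, F.coeff j ∈ L := by
    intro j
    by_cases h0 : F.coeff j = 0
    · rw [h0]; exact zero_mem _
    · exact subset_adjoin k S (Or.inr (Or.inr (Or.inl (coeff_mem_coeffs h0))))
  have hGL : ∀ j, G.coeff j ∈ L := by
    intro j
    by_cases h0 : G.coeff j = 0
    · rw [h0]; exact zero_mem _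
    · exact subset_adjoin k S (Or.inr (Or.inr (Or.inr (coeff_mem_coeffs h0))))
  obtain ⟨htrL, halgL⟩ := trdeg_intermediate hE L t ht htL
  have hLess : Algebra.EssFiniteType k L :=
    essFiniteType_iff.2 (fg_adjoin_of_finite hSfin)
  have hLff : Pool.Agent.Helper16.IsFunctionField k L := ⟨hLess, htrL⟩
  obtain ⟨F', hF'⟩ := exists_lift_poly F hFL
  obtain ⟨G', hG'⟩ := exists_lift_poly G hGL
  have hFG' : IsRatD F' G' d := isRatD_of_map (E := E) (by rw [hF', hG']; exact hFG)
  have hR := resultant_ne_zero_of_isRatD hd hFG'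
  set 𝒢 : Finset L := insert (resultant F' G' d d) (F'.coeffs ∪ G'.coeffs) with h𝒢
  have h𝒢0 : ∀ g ∈ 𝒢, g ≠ 0 := by
    intro g hg
    rw [h𝒢, Finset.mem_insert, Finset.mem_union] at hg
    rcases hg with rfl | hg | hg
    · exact hR
    · obtain ⟨j, hj, rfl⟩ := mem_coeffs_iff.1 hg
      exact mem_support_iff.1 hj
    · obtain ⟨j, hj, rfl⟩ := mem_coeffs_iff.1 hg
      exact mem_support_iff.1 hj
  set n' := max n 1 with hn'
  set s : ℕ := ∑ g ∈ 𝒢, 2 * (Module.finrank k⟮g⟯ L * n') with hs
  refine ⟨Pool.Agent.Helper55.RM.bound d s, fun p ζ hp0 hpn hpc hζ hroot hpp T hT => ?_⟩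
  -- the coordinate
  obtain ⟨r, c, hc, hζr, hr⟩ : ∃ (r c : E), c ≠ 0 ∧ (ζ = c • (1, 0) ∧ r = 0 ∨ ζ = c • (r, 1)) ∧
      ∃ p' : L[X], p' ≠ 0 ∧ p'.natDegree ≤ n' ∧ aeval r p' = 0 := by
    by_cases h2 : ζ.2 = 0
    · refine ⟨0, ζ.1, fun h1 => hζ (Prod.ext h1 h2), Or.inl ⟨?_, rfl⟩, X, X_ne_zero, ?_, ?_⟩
      · ext
        · simp
        · simp [h2]
      · rw [natDegree_X]; exact le_max_right _ _
      · simp
    · refine ⟨ζ.1 / ζ.2, ζ.2, h2, Or.inr ?_, ?_⟩
      · ext
        · simp only [Prod.smul_mk, smul_eq_mul]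
          field_simp
        · simp
      · have hSS : adjoin k S₀ ≤ L := adjoin.mono k S₀ S (by rw [hS]; exact Set.subset_union_left)
        obtain ⟨p', hp'⟩ := exists_lift_poly (K := L) p fun j => hSS (hpc j)
        refine ⟨p', ?_, ?_, ?_⟩
        · rintro rfl
          rw [Polynomial.map_zero] at hp'
          exact hp0 hp'.symm
        · have := natDegree_map (f := algebraMap L E) (p := p')
          rw [hp'] at this
          rw [← this]
          exact hpn.trans (le_max_left _ _)
        · have := hroot h2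
          rw [← hp', eval_map_algebraMap] at this
          exact this
  obtain ⟨p', hp'0, hp'n, hp'r⟩ := hr
  have hint : IsIntegral L r := isAlgebraic_iff_isIntegral.1 ⟨p', hp'0, hp'r⟩
  set M := L⟮r⟯ with hM
  have hMfin : FiniteDimensional L M := adjoin.finiteDimensional hint
  have hMrank : Module.finrank L M ≤ n' := by
    rw [hM, adjoin.finrank hint]
    refine le_trans ?_ hp'n
    exact natDegree_le_of_dvd (minpoly.dvd L r hp'r) hp'0
  have hMff : Pool.Agent.Helper16.IsFunctionField k M := hLff.of_finite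
  have halgM : Algebra.IsAlgebraic M E := Algebra.IsAlgebraic.tower_top (K := L) M
  have hst : IsScalarTower k M E := IsScalarTower.of_algebraMap_eq fun x => rfl
  set F'' : M[X] := F'.map (algebraMap L M) with hF''
  set G'' : M[X] := G'.map (algebraMap L M) with hG''
  have hFE : F''.map (algebraMap M E) = F := by
    rw [hF'', Polynomial.map_map, ← IsScalarTower.algebraMap_eq, hF']
  have hGE : G''.map (algebraMap M E) = G := by
    rw [hG'', Polynomial.map_map, ← IsScalarTower.algebraMap_eq, hG']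
  have hFGM : IsRatD F'' G'' d := isRatD_of_map (E := E) (by rw [hFE, hGE]; exact hFG)
  have hnotM : ¬ Isotrivial k d (frm F'' G'' d) := by
    intro h
    have := constConj_of_isotrivial (k := k) (M := M) (E := E) (F := F'') (G := G'') (d := d)
      (by rw [hFE, hGE]; exact hFG) h
    rw [hFE, hGE] at this
    exact hnot this
  -- the bad places
  have hZ : ∀ g : L, ∃ Z : Finset (Pool.Agent.Helper55.RM.Place k M), g ≠ 0 →
      Z.card ≤ 2 * (Module.finrank k⟮g⟯ L * Module.finrank L M) ∧
      ∀ v ∉ Z, v.val (algebraMap L M g) = 1 := by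
    intro g
    by_cases hg : g = 0
    · exact ⟨∅, fun h => absurd hg h⟩
    · obtain ⟨Z, h⟩ := card_ne_one_le (k := k) (L := L) (M := M) hMff g hg
      exact ⟨Z, fun _ => h⟩
  choose Z hZ using hZ
  have hZcard : (𝒢.biUnion Z).card ≤ s := by
    refine Finset.card_biUnion_le.trans (Finset.sum_le_sum fun g hg => ?_)
    refine (hZ g (h𝒢0 g hg)).1.trans ?_
    gcongr
  have hZout : ∀ v ∉ 𝒢.biUnion Z, ∀ g ∈ 𝒢, v.val (algebraMap L M g) = 1 := by
    intro v hv g hg
    refine (hZ g (h𝒢0 g hg)).2 v fun h => hv (Finset.mem_biUnion.2 ⟨g, hg, h⟩)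
  -- the field data of `M`
  have hfg : (⊤ : IntermediateField k M).FG := fg_top_iff.2 hMff.1
  have htr : ∃ x : M, Transcendental k x ∧ Algebra.IsAlgebraic (IntermediateField.adjoin k {x}) M := by
    obtain ⟨x, hx⟩ := exists_transcendental hMff.2
    have := hMff.finiteDimensional x hx
    exact ⟨x, hx, inferInstance⟩
  -- the point over `M`
  obtain ⟨ζ', hζ', hζζ'⟩ : ∃ ζ' : M × M, ζ' ≠ 0 ∧ ζ = c • (algebraMap M E ζ'.1, algebraMap M E ζ'.2) := by
    rcases hζr with ⟨h1, -⟩ | h1
    · refine ⟨(1, 0), ?_, ?_⟩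
      · intro h; exact one_ne_zero (congrArg Prod.fst h)
      · rw [h1]; simp
    · refine ⟨(⟨r, mem_adjoin_simple_self L r⟩, 1), ?_, ?_⟩
      · intro h; exact one_ne_zero (congrArg Prod.snd h)
      · rw [h1]; simp
  have hkey : ∀ i, pt ((phi F G d)^[i] ζ) =
      (pt ((phi F'' G'' d)^[i] ζ')).map (algebraMap M E) := by
    intro i
    rw [hζζ', phi_iter_smul, pt_smul (pow_ne_zero _ hc), ← hFE, ← hGE, phi_iter_map, pt_map]
  have hneE : ∀ i, (phi F G d)^[i] ζ ≠ 0 :=
    phi_iter_ne_zero hFG.cop hFG.degF hFG.degG hFG.top hζ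
  have hneM : ∀ i, (phi F'' G'' d)^[i] ζ' ≠ 0 :=
    phi_iter_ne_zero hFGM.cop hFGM.degF hFGM.degG hFGM.top hζ'
  have hinj : Function.Injective (Option.map (algebraMap M E)) :=
    Option.map_injective (algebraMap M E).injective
  have hpp' : ∃ a b, a < b ∧ cr ((phi F'' G'' d)^[a] ζ') ((phi F'' G'' d)^[b] ζ') = 0 := by
    obtain ⟨a, b, hab, h⟩ := hpp
    refine ⟨a, b, hab, ?_⟩
    rw [← pt_eq_iff (hneE a) (hneE b), hkey, hkey] at h
    rw [← pt_eq_iff (hneM a) (hneM b)]
    exact hinj h
  -- transfer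
  have hT' : ∀ q : T, ∃ i, q.1 = pt ((phi F G d)^[i] ζ) := fun q => hT q.1 q.2
  choose idx hidx using hT'
  set T' : Finset (Option M) := T.attach.image fun q => pt ((phi F'' G'' d)^[idx q] ζ') with hT'def
  have hcard : T.card = T'.card := by
    rw [hT'def, Finset.card_image_of_injective, Finset.card_attach]
    intro q q' h
    apply Subtype.ext
    rw [hidx q, hidx q', hkey, hkey]
    simp only at h
    rw [h]
  rw [hcard]
  refine card_orbit_le hfg htr F'' G'' hd hFGM hnotM s (𝒢.biUnion Z) hZcard ?_ ζ' hζ' hpp' T' ?_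
  · intro v hv
    have hcoef : ∀ (P : L[X]), (P.coeffs ⊆ 𝒢) → ∀ j, v.val ((P.map (algebraMap L M)).coeff j) ≤ 1 := by
      intro P hP j
      rw [coeff_map]
      by_cases h0 : P.coeff j = 0
      · rw [h0, map_zero, map_zero]; exact zero_le_one
      · exact (hZout v hv _ (hP (coeff_mem_coeffs h0))).le
    refine ⟨hcoef F' ?_, hcoef G' ?_, ?_⟩
    · intro x hx
      exact Finset.mem_insert_of_mem (Finset.mem_union_left _ hx)
    · intro x hx
      exact Finset.mem_insert_of_mem (Finset.mem_union_right _ hx)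
    · rw [hF'', hG'', resultant_map_map]
      exact hZout v hv _ (Finset.mem_insert_self _ _)
  · intro q hq
    obtain ⟨q', -, rfl⟩ := Finset.mem_image.1 hq
    exact ⟨_, rfl⟩

end bound

end Pool.Agent.Helper91.DT
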