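import Pool.Agent.Helper91.DT.D

/-!
# DT6, part E: the correspondence argument
-/

set_option autoImplicit false

namespace Pool.Agent.Helper91.DT

open Polynomial IntermediateField Pool.Agent.Helper93.RatODE Pool.Agent.Helper45.FR
  Pool.Agent.Helper38.DT

section forms

variable {K : Type} [Field K]

theorem pt_mem_roots {P : K[X]} {n : ℕ} (hP0 : P ≠ 0) (hP : P.natDegree ≤ n) {z : K × K}
    (h : hev P n z.1 z.2 = 0) [DecidableEq K] [DecidableEq (Option K)] :
    pt z ∈ P.roots.toFinset.image some ∪ {none} := by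
  unfold pt
  by_cases h2 : z.2 = 0
  · simp [h2]
  · rw [if_neg h2]
    rw [hev_eq_eval P n hP _ _ h2] at h
    have h3 := (mul_eq_zero.1 h).resolve_left (pow_ne_zero _ h2)
    rw [Finset.mem_union]
    left
    rw [Finset.mem_image]
    exact ⟨_, by rw [Multiset.mem_toFinset, mem_roots hP0]; exact h3, rfl⟩

/-- a nonzero form of degree `n` has at most `n` zeros -/
theorem card_zeros_form {P : K[X]} {n : ℕ} (hP0 : P ≠ 0) (hP : P.natDegree ≤ n)
    (T : Finset (Option K)) (hT : ∀ q ∈ T, ∃ z : K × K, z ≠ 0 ∧ q = pt z ∧ hev P n z.1 z.2 = 0) :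
    T.card ≤ n := by
  classical
  have hroots : P.roots.toFinset.card ≤ P.natDegree :=
    (Multiset.toFinset_card_le _).trans (card_roots' P)
  by_cases hc : P.coeff n = 0
  · have hlt : P.natDegree < n := by
      refine lt_of_le_of_ne hP fun h => hP0 ?_
      rw [← h, coeff_natDegree, leadingCoeff_eq_zero] at hc
      exact hc
    have hsub : T ⊆ P.roots.toFinset.image some ∪ {none} := by
      intro q hq
      obtain ⟨z, -, rfl, h⟩ := hT q hq
      exact pt_mem_roots hP0 hP h
    refine (Finset.card_le_card hsub).trans ((Finset.card_union_le _ _).trans ?_)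
    have := Finset.card_image_le (s := P.roots.toFinset) (f := some)
    rw [Finset.card_singleton]
    omega
  · have hsub : T ⊆ P.roots.toFinset.image some := by
      intro q hq
      obtain ⟨z, hz, rfl, h⟩ := hT q hq
      have h1 := pt_mem_roots hP0 hP h
      rw [Finset.mem_union] at h1
      rcases h1 with h1 | h1
      · exact h1
      · exfalso
        rw [Finset.mem_singleton] at h1
        unfold pt at h1
        split_ifs at h1 with h2
        have h3 : z.1 ≠ 0 := fun h3 => hz (Prod.ext h3 h2)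
        rw [h2, hev_right_zero] at h
        rcases mul_eq_zero.1 h with h4 | h4
        · exact hc (by simpa using h4)
        · exact h3 (eq_zero_of_pow_eq_zero h4)
    refine (Finset.card_le_card hsub).trans ?_
    have := Finset.card_image_le (s := P.roots.toFinset) (f := some)
    omega

theorem exists_zero_form [IsAlgClosed K] {P : K[X]} {n : ℕ} (hn : 1 ≤ n) (hP : P.natDegree ≤ n) :
    ∃ z : K × K, z ≠ 0 ∧ hev P n z.1 z.2 = 0 := by
  by_cases hc : P.coeff n = 0
  · refine ⟨(1, 0), fun h => one_ne_zero (congrArg Prod.fst h), ?_⟩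
    rw [hev_right_zero, hc, map_zero, zero_mul]
  · have hdeg : P.degree ≠ 0 := by
      intro h
      have h1 : P.natDegree = 0 := natDegree_eq_of_degree_eq_some h
      rw [coeff_eq_zero_of_natDegree_lt (by omega)] at hc
      exact hc rfl
    obtain ⟨r, hr⟩ := IsAlgClosed.exists_root P hdeg
    refine ⟨(r, 1), fun h => one_ne_zero (congrArg Prod.snd h), ?_⟩
    change hev P n r 1 = 0
    rw [hev_one hP]
    exact hr

/-- the form of `bev` in the second pair -/
noncomputable def pz (q : ℕ → ℕ → K) (m n : ℕ) (y : K × K) : K[X] :=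
  ∑ b ∈ Finset.range (n + 1),
    C (∑ a ∈ Finset.range (m + 1), q a b * y.1 ^ a * y.2 ^ (m - a)) * X ^ b

theorem pz_coeff (q : ℕ → ℕ → K) (m n : ℕ) (y : K × K) (b : ℕ) : (pz q m n y).coeff b =
    if b < n + 1 then ∑ a ∈ Finset.range (m + 1), q a b * y.1 ^ a * y.2 ^ (m - a) else 0 := by
  unfold pz
  rw [finsetSum_coeff]
  simp only [coeff_C_mul_X_pow]
  rw [Finset.sum_ite_eq]
  simp only [Finset.mem_range]

theorem pz_natDegree (q : ℕ → ℕ → K) (m n : ℕ) (y : K × K) : (pz q m n y).natDegree ≤ n := by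
  rw [natDegree_le_iff_coeff_eq_zero]
  intro b hb
  rw [pz_coeff, if_neg (by omega)]

theorem bev_eq_hev (q : ℕ → ℕ → K) (m n : ℕ) (y z : K × K) :
    bev q m n y.1 y.2 z.1 z.2 = hev (pz q m n y) n z.1 z.2 := by
  unfold bev hev
  rw [Finset.sum_comm]
  refine Finset.sum_congr rfl fun b hb => ?_
  rw [Finset.mem_range] at hb
  rw [pz_coeff, if_pos hb, Algebra.algebraMap_self, RingHom.id_apply, Finset.sum_mul,
    Finset.sum_mul]

theorem bev_swap (q : ℕ → ℕ → K) (m n : ℕ) (y0 y1 z0 z1 : K) :
    bev q m n y0 y1 z0 z1 = bev (fun b a => q a b) n m z0 z1 y0 y1 := by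
  unfold bev
  rw [Finset.sum_comm]
  refine Finset.sum_congr rfl fun b _ => Finset.sum_congr rfl fun a _ => ?_
  ring

end forms

end Pool.Agent.Helper91.DT
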