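import Pool.Agent.Helper91.DT.E

/-!
# DT6: a rational function in correspondence with a constant one is constant (up to conjugation)
-/

set_option autoImplicit false

namespace Pool.Agent.Helper91.DT

open Polynomial IntermediateField Pool.Agent.Helper93.RatODE Pool.Agent.Helper45.FR
  Pool.Agent.Helper38.DT

section conj

variable {k E : Type} [Field k] [Field E] [Algebra k E]

/-- the action of a matrix on pairs -/
def mat (A : Matrix (Fin 2) (Fin 2) E) (v : E × E) : E × E :=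
  (A 0 0 * v.1 + A 0 1 * v.2, A 1 0 * v.1 + A 1 1 * v.2)

theorem mat_smul (A : Matrix (Fin 2) (Fin 2) E) (c : E) (v : E × E) :
    mat A (c • v) = c • mat A v := by
  ext <;> simp only [mat, Prod.smul_fst, Prod.smul_snd, smul_eq_mul] <;> ring

theorem cr_mat (A : Matrix (Fin 2) (Fin 2) E) (v w : E × E) :
    cr (mat A v) (mat A w) = A.det * cr v w := by
  rw [Matrix.det_fin_two]
  simp only [mat, cr]
  ring

theorem mat_ne_zero {A : Matrix (Fin 2) (Fin 2) E} (hA : A.det ≠ 0) {v : E × E} (hv : v ≠ 0) :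
    mat A v ≠ 0 := by
  intro h
  have h1 : A 0 0 * v.1 + A 0 1 * v.2 = 0 := congrArg Prod.fst h
  have h2 : A 1 0 * v.1 + A 1 1 * v.2 = 0 := congrArg Prod.snd h
  rw [Matrix.det_fin_two] at hA
  apply hv
  refine Prod.ext ?_ ?_
  · refine (mul_eq_zero.1 (?_ : (A 0 0 * A 1 1 - A 0 1 * A 1 0) * v.1 = 0)).resolve_left hA
    linear_combination A 1 1 * h1 - A 0 1 * h2
  · refine (mul_eq_zero.1 (?_ : (A 0 0 * A 1 1 - A 0 1 * A 1 0) * v.2 = 0)).resolve_left hA
    linear_combination A 0 0 * h2 - A 1 0 * h1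

/-- conjugacy in terms of values -/
theorem phi_mat {F G : E[X]} {d : ℕ} {A : Matrix (Fin 2) (Fin 2) E} {P' Q' : k[X]} {c : E}
    (hF : (hev F d (C (A 0 0) * X + C (A 0 1)) (C (A 1 0) * X + C (A 1 1)) : E[X]) =
        C c * (C (A 0 0) * P'.map (algebraMap k E) + C (A 0 1) * Q'.map (algebraMap k E)))
    (hG : (hev G d (C (A 0 0) * X + C (A 0 1)) (C (A 1 0) * X + C (A 1 1)) : E[X]) =
        C c * (C (A 1 0) * P'.map (algebraMap k E) + C (A 1 1) * Q'.map (algebraMap k E)))
    (v : E × E) : phi F G d (mat A v) =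
      c • mat A (phi (P'.map (algebraMap k E)) (Q'.map (algebraMap k E)) d v) := by
  have key : ∀ R : E[X], hev (hev R d (C (A 0 0) * X + C (A 0 1)) (C (A 1 0) * X + C (A 1 1)) : E[X])
      d v.1 v.2 = hev R d (mat A v).1 (mat A v).2 := by
    intro R
    have h3 := hev_comp R d (q := 1) (U := C (A 0 0) * X + C (A 0 1))
      (W := C (A 1 0) * X + C (A 1 1)) natDegree_linear_le natDegree_linear_le v.1 v.2
    rw [mul_one] at h3
    rw [h3, hev_linear, hev_linear]
    simp [mat]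
  have h1 := key F
  have h2 := key G
  rw [hF, hev_C_mul, hev_add, hev_C_mul, hev_C_mul] at h1
  rw [hG, hev_C_mul, hev_add, hev_C_mul, hev_C_mul] at h2
  simp only [Algebra.algebraMap_self, RingHom.id_apply] at h1 h2
  refine Prod.ext ?_ ?_
  · exact h1.symm
  · exact h2.symm

theorem phi_mat_iter {F G : E[X]} {d : ℕ} {A : Matrix (Fin 2) (Fin 2) E} {P' Q' : k[X]} {c : E}
    (hc : c ≠ 0)
    (hF : (hev F d (C (A 0 0) * X + C (A 0 1)) (C (A 1 0) * X + C (A 1 1)) : E[X]) =
        C c * (C (A 0 0) * P'.map (algebraMap k E) + C (A 0 1) * Q'.map (algebraMap k E)))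
    (hG : (hev G d (C (A 0 0) * X + C (A 0 1)) (C (A 1 0) * X + C (A 1 1)) : E[X]) =
        C c * (C (A 1 0) * P'.map (algebraMap k E) + C (A 1 1) * Q'.map (algebraMap k E)))
    (v : E × E) (i : ℕ) : ∃ e : E, e ≠ 0 ∧ (phi F G d)^[i] (mat A v) =
      e • mat A ((phi (P'.map (algebraMap k E)) (Q'.map (algebraMap k E)) d)^[i] v) := by
  induction i with
  | zero => exact ⟨1, one_ne_zero, by simp⟩
  | succ i ih =>
    obtain ⟨e, he, h⟩ := ih
    refine ⟨e ^ d * c, mul_ne_zero (pow_ne_zero _ he) hc, ?_⟩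
    rw [Function.iterate_succ_apply', Function.iterate_succ_apply', h, phi_smul,
      phi_mat hF hG, mul_smul]

end conj

/-- The statement of DT7. -/
def DT7 (k : Type) [Field k] : Prop :=
  ∀ (A B : k[X]) (δ : ℕ), 2 ≤ δ → IsRatD A B δ → ∀ N : ℕ,
    ∃ v : k × k, v ≠ 0 ∧ (∃ a b : ℕ, a < b ∧ cr ((phi A B δ)^[a] v) ((phi A B δ)^[b] v) = 0) ∧
      ∀ i ≤ N, ∀ j ≤ N, cr ((phi A B δ)^[i] v) ((phi A B δ)^[j] v) = 0 → i = j

/-- **DT6** : a rational function in correspondence with a constant one is constant (up to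
conjugation). -/
theorem dt6_of {k E : Type} [Field k] [IsAlgClosed k] [Field E] [IsAlgClosed E] [Algebra k E]
    (hDT7 : DT7 k)
    (hE : Algebra.trdeg k E = 1) (F G : E[X]) (d : ℕ) (hd : 2 ≤ d) (hFG : IsRatD F G d)
    (A B : E[X]) (δ : ℕ) (hδ : 2 ≤ δ) (hAB : IsRatD A B δ) (hc : ConstConj k A B δ)
    (q : ℕ → ℕ → E) (m n ρ : ℕ) (hρ : 1 ≤ ρ)
    (hq : Corr q m n A B δ (iter F G d ρ).1 (iter F G d ρ).2 (d ^ ρ)) : ConstConj k F G d := by
  classical
  by_contra hnot
  obtain ⟨Mx, A', B', c, hdet, hc0, hA'd, hB'd, hcop, htop, hEA, hEB⟩ := hc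
  have hAB' : IsRatD A' B' δ := ⟨(isCoprime_map _).1 hcop, hA'd, hB'd, htop⟩
  -- the finite set of coefficients
  set S₀ : Set E := (⋃ a ∈ Finset.range (m + 1), ⋃ b ∈ Finset.range (n + 1), {q a b}) ∪
    {Mx 0 0, Mx 0 1, Mx 1 0, Mx 1 1} with hS₀
  have hS₀fin : S₀.Finite := by
    refine Set.Finite.union ?_ ?_
    · refine Set.Finite.biUnion (Finset.finite_toSet _) fun a _ => ?_
      exact Set.Finite.biUnion (Finset.finite_toSet _) fun b _ => Set.finite_singleton _
    · exact Set.toFinite _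
  have hqS : ∀ a < m + 1, ∀ b < n + 1, q a b ∈ adjoin k S₀ := by
    intro a ha b hb
    refine subset_adjoin k S₀ (Or.inl ?_)
    simp only [Set.mem_iUnion]
    exact ⟨a, Finset.mem_range.2 ha, b, Finset.mem_range.2 hb, rfl⟩
  have hMS : ∀ i j, Mx i j ∈ adjoin k S₀ := by
    intro i j
    refine subset_adjoin k S₀ (Or.inr ?_)
    fin_cases i <;> fin_cases j <;> simp
  obtain ⟨Bd, hBd⟩ := exists_bound hE F G hd hFG hnot S₀ hS₀fin n
  set N := m * Bd with hN
  obtain ⟨v, hv, ⟨a₀, b₀, hab₀, hcr₀⟩, hinj⟩ := hDT7 A' B' δ hδ hAB' N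
  -- the orbit upstairs
  set vE : E × E := (algebraMap k E v.1, algebraMap k E v.2) with hvE
  have hvE0 : vE ≠ 0 := by
    intro h
    apply hv
    refine Prod.ext ?_ ?_
    · have : algebraMap k E v.1 = 0 := congrArg Prod.fst h
      simpa using this
    · have : algebraMap k E v.2 = 0 := congrArg Prod.snd h
      simpa using this
  set y : ℕ → E × E := fun i => (phi A B δ)^[i] (mat Mx vE) with hy
  have hy0 : ∀ i, y i ≠ 0 :=
    phi_iter_ne_zero hAB.cop hAB.degF hAB.degG hAB.top (mat_ne_zero hdet hvE0)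
  have hycr : ∀ i j, cr (y i) (y j) = 0 ↔
      cr ((phi A' B' δ)^[i] v) ((phi A' B' δ)^[j] v) = 0 := by
    intro i j
    obtain ⟨e, he, h1⟩ := phi_mat_iter hc0 hEA hEB vE i
    obtain ⟨f, hf, h2⟩ := phi_mat_iter hc0 hEA hEB vE j
    simp only [hy]
    rw [h1, h2, cr_smul_left, cr_smul_right, cr_mat, hvE, phi_iter_map, phi_iter_map]
    have h3 : cr (algebraMap k E ((phi A' B' δ)^[i] v).1, algebraMap k E ((phi A' B' δ)^[i] v).2)
        (algebraMap k E ((phi A' B' δ)^[j] v).1, algebraMap k E ((phi A' B' δ)^[j] v).2) =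
        algebraMap k E (cr ((phi A' B' δ)^[i] v) ((phi A' B' δ)^[j] v)) := by
      simp only [cr, map_sub, map_mul]
    rw [h3]
    simp [he, hf, hdet]
  have hyinj : ∀ i ≤ N, ∀ j ≤ N, pt (y i) = pt (y j) → i = j := by
    intro i hi j hj h
    rw [pt_eq_iff (hy0 i) (hy0 j), hycr] at h
    exact hinj i hi j hj h
  have hystep : ∀ i, y (i + 1) = phi A B δ (y i) := fun i => Function.iterate_succ_apply' _ i _
  -- the starting point
  have hpz0 : ∀ i, pz q m n (y i) ≠ 0 := by
    intro i h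
    obtain ⟨z0, z1, hz⟩ := hq.left (y i).1 (y i).2 (by
      by_contra hcon
      push Not at hcon
      exact hy0 i (Prod.ext hcon.1 hcon.2))
    apply hz
    have := bev_eq_hev q m n (y i) (z0, z1)
    simp only at this
    rw [this, h, hev_zero_poly]
  obtain ⟨ζ, hζ, hζz⟩ := exists_zero_form hq.pos (pz_natDegree q m n (y 0))
  set g : ℕ → E × E := fun i => (phi F G d)^[ρ * i] ζ with hg
  have hneF : ∀ i, (phi F G d)^[i] ζ ≠ 0 :=
    phi_iter_ne_zero hFG.cop hFG.degF hFG.degG hFG.top hζ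
  have hg0 : ∀ i, g i ≠ 0 := fun i => hneF _
  have hgstep : ∀ i, g (i + 1) = (hev (iter F G d ρ).1 (d ^ ρ) (g i).1 (g i).2,
      hev (iter F G d ρ).2 (d ^ ρ) (g i).1 (g i).2) := by
    intro i
    have h1 : g (i + 1) = (phi F G d)^[ρ] (g i) := by
      simp only [hg]
      rw [← Function.iterate_add_apply]
      congr 1
      ring
    rw [h1, phi_iter]
  have hbev : ∀ i, bev q m n (y i).1 (y i).2 (g i).1 (g i).2 = 0 := by
    intro i
    induction i with
    | zero =>
      have h1 : g 0 = ζ := by simp [hg]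
      rw [h1, bev_eq_hev]
      exact hζz
    | succ i ih =>
      rw [hystep, hgstep]
      exact hq.inv _ _ _ _ ih
  have hbz : ∀ i, hev (pz q m n (y i)) n (g i).1 (g i).2 = 0 := fun i => by
    rw [← bev_eq_hev]; exact hbev i
  -- `ζ` is preperiodic
  have hyfin : ∀ i, ∃ j < b₀, cr (y i) (y j) = 0 := by
    intro i
    exact exists_lt_cr hAB.cop hAB.degF hAB.degG hAB.top (mat_ne_zero hdet hvE0) hab₀
      ((hycr a₀ b₀).2 hcr₀) i
  have hpp : ∃ a b, a < b ∧ cr ((phi F G d)^[a] ζ) ((phi F G d)^[b] ζ) = 0 := by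
    set W : Finset (Option E) := (Finset.range b₀).biUnion fun j =>
      (pz q m n (y j)).roots.toFinset.image some ∪ {none} with hW
    have hmem : ∀ i, pt (g i) ∈ W := by
      intro i
      obtain ⟨j, hj, hij⟩ := hyfin i
      rw [hW, Finset.mem_biUnion]
      refine ⟨j, Finset.mem_range.2 hj, pt_mem_roots (hpz0 j) (pz_natDegree q m n _) ?_⟩
      obtain ⟨e, he, h1⟩ := exists_smul_of_cr (hy0 i) (hy0 j) hij
      rw [← bev_eq_hev, bev_swap, h1]
      have h2 := bev_eq_hev (fun b a => q a b) n m (g i) (e • y i)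
      rw [h2, Prod.smul_fst, Prod.smul_snd, smul_eq_mul, smul_eq_mul, hev_smul_arg, ← bev_eq_hev,
        ← bev_swap, hbev i, mul_zero]
    obtain ⟨i, j, hij, hpt⟩ := Finite.exists_ne_map_eq_of_infinite
      (fun i : ℕ => (⟨pt (g i), hmem i⟩ : W))
    have hpt' : pt (g i) = pt (g j) := congrArg Subtype.val hpt
    rw [pt_eq_iff (hg0 i) (hg0 j)] at hpt'
    rcases lt_or_gt_of_ne hij with h | h
    · exact ⟨ρ * i, ρ * j, Nat.mul_lt_mul_of_pos_left h (by omega), hpt'⟩
    · rw [cr_comm, neg_eq_zero] at hpt'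
      exact ⟨ρ * j, ρ * i, Nat.mul_lt_mul_of_pos_left h (by omega), hpt'⟩
  -- the number of points of the orbit
  set T : Finset (Option E) := (Finset.range (N + 1)).image fun i => pt (g i) with hT
  have hfib : ∀ p ∈ T, ((Finset.range (N + 1)).filter fun i => pt (g i) = p).card ≤ m := by
    intro p hp
    obtain ⟨i₀, hi₀, rfl⟩ := Finset.mem_image.1 hp
    set I := (Finset.range (N + 1)).filter fun i => pt (g i) = pt (g i₀) with hI
    have hcard : (I.image fun i => pt (y i)).card = I.card := by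
      rw [Finset.card_image_of_injOn]
      intro i hi j hj h
      have hi' := Finset.mem_range.1 (Finset.mem_filter.1 (Finset.mem_coe.1 hi)).1
      have hj' := Finset.mem_range.1 (Finset.mem_filter.1 (Finset.mem_coe.1 hj)).1
      exact hyinj i (by omega) j (by omega) h
    rw [← hcard]
    have hne : pz (fun b a => q a b) n m (g i₀) ≠ 0 := by
      intro h
      obtain ⟨y0, y1, hyy⟩ := hq.right (g i₀).1 (g i₀).2 (by
        by_contra hcon
        push Not at hcon
        exact hg0 i₀ (Prod.ext hcon.1 hcon.2))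
      apply hyy
      rw [bev_swap]
      have := bev_eq_hev (fun b a => q a b) n m (g i₀) (y0, y1)
      simp only at this
      rw [this, h, hev_zero_poly]
    refine card_zeros_form hne (pz_natDegree _ _ _ _) _ fun p hp => ?_
    obtain ⟨i, hi, rfl⟩ := Finset.mem_image.1 hp
    refine ⟨y i, hy0 i, rfl, ?_⟩
    have hgi : pt (g i₀) = pt (g i) := (Finset.mem_filter.1 hi).2.symm
    rw [pt_eq_iff (hg0 i₀) (hg0 i), cr_comm, neg_eq_zero] at hgi
    obtain ⟨e, he, h1⟩ := exists_smul_of_cr (hg0 i) (hg0 i₀) hgi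
    rw [← bev_eq_hev, ← bev_swap, h1]
    have h2 := bev_eq_hev q m n (y i) (e • g i)
    rw [h2, Prod.smul_fst, Prod.smul_snd, smul_eq_mul, smul_eq_mul, hev_smul_arg, hbz i, mul_zero]
  have hcard : N + 1 ≤ m * T.card := by
    have := Finset.card_le_mul_card_image (f := fun i => pt (g i)) (Finset.range (N + 1)) m
      (fun p hp => hfib p hp)
    rwa [Finset.card_range] at this
  have hTB : T.card ≤ Bd := by
    refine hBd (pz q m n (y 0)) ζ (hpz0 0) (pz_natDegree q m n _) ?_ hζ ?_ hpp T ?_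
    · intro j
      rw [pz_coeff]
      split_ifs with hj
      · refine sum_mem fun a ha => ?_
        have hyL : (y 0).1 ∈ adjoin k S₀ ∧ (y 0).2 ∈ adjoin k S₀ := by
          have h1 : y 0 = mat Mx vE := rfl
          rw [h1]
          refine ⟨add_mem (mul_mem (hMS 0 0) ?_) (mul_mem (hMS 0 1) ?_),
            add_mem (mul_mem (hMS 1 0) ?_) (mul_mem (hMS 1 1) ?_)⟩ <;>
          exact IntermediateField.algebraMap_mem _ _
        exact mul_mem (mul_mem (hqS a (Finset.mem_range.1 ha) j hj) (pow_mem hyL.1 _))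
          (pow_mem hyL.2 _)
      · exact zero_mem _
    · intro h2
      rw [hev_eq_eval _ n (pz_natDegree q m n _) _ _ h2] at hζz
      exact (mul_eq_zero.1 hζz).resolve_left (pow_ne_zero _ h2)
    · intro p hp
      obtain ⟨i, -, rfl⟩ := Finset.mem_image.1 hp
      exact ⟨ρ * i, rfl⟩
  have := Nat.mul_le_mul_left m hTB
  omega

end Pool.Agent.Helper91.DT
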